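import Pool.Agent.Helper7.EC_E.GoalsR
import Pool.Agent.Helper27.EC.E_SYM
import Pool.Agent.Helper56.EC.E_XC

/-!
# MP_ecc237_nt, PART E: packet RY, the symmetries of the inner sums
-/

set_option autoImplicit false

open MeasureTheory Filter Topology Set

namespace EC237.ZE.PkRY

open EC237.DX

theorem css (h1 : EC237.ZE.G_RS) : G_CSS := by
  intro y hy i r r' α α' s hi hr hr' hα hα' hs
  obtain ⟨C, _, h⟩ := h1 y hy
  exact (h s hs r r' hr hr' α α' hα hα' i hi).1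

theorem XS_eq (c1 c2 a1 a2 : ℤ) (i : ℕ) (w : ℂ) (s : ℤ × ℤ) :
    XS c1 c2 a1 a2 i w s = cs w i c1 c2 a1 a2 s := rfl

theorem thm (h1 : EC237.ZE.G_RS) (_h2 : EC237.A1) : EC237.ZE.G_RY := by
  intro y hy s hs
  have X4 := (Pool.Agent.Helper56.EC.E_XC.thm (y:ℂ)).2.2.2.1
  obtain ⟨s1, s2, s3, s4, s5, -⟩ :=
    Pool.Agent.Helper27.EC.E_SYM.thm Pool.Agent.Helper56.EC.E_XC.thm (css h1) y hy
  have e0 : ∀ (r r' β β' : ℤ) (t : ℤ × ℤ),
      cs (y:ℂ) 0 r r' β β' t = cs (y:ℂ) 0 r r' 0 0 t := by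
    intro r r' β β' t
    unfold cs
    refine tsum_congr fun k => ?_
    by_cases hk : InCl r k ∧ InCl r' (t - k)
    · rw [if_pos hk, if_pos hk, X4]
    · rw [if_neg hk, if_neg hk]
  refine ⟨s2 1 1 (-1) s, s3 1 s, s4 s hs, s2 5 (-1) 0 s, ?_, s2 1 0 1 s, s1 1 1 1 0 1 s, ?_⟩
  · have h := s5 1 1 1 5 5 1 0 s (by norm_num) (by norm_num)
    rw [neg_zero] at h
    exact h.symm
  · have h := s5 0 1 5 5 1 1 (-1) s (by norm_num) (by norm_num)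
    have h' : Ev 0 (y:ℂ) (-s) = cs (y:ℂ) 0 5 1 (-1) (- -1) s := h
    rw [h', e0 5 1 (-1) (- -1) s]
    rfl

end EC237.ZE.PkRY
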